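import Pool.Agent.helper43.KG.Spec

set_option autoImplicit false

/-!
# Row kg:RDB (MP_cef0b4_gt): the transposed matrix
-/

namespace Pool.Agent.helper43.KG

open Finset MeasureTheory ProbabilityTheory
open scoped ENNReal

theorem RDB_holder {d : ℕ} (P : ℝ) (hP : 1 ≤ P) (u : Fin d → ℝ) :
    ∑ i, |u i| ≤ (d : ℝ) ^ (1 - 1 / P) * (∑ i, |u i| ^ P) ^ (1 / P) := by
  have hP0 : 0 < P := by linarith
  have h1 := Real.rpow_sum_le_const_mul_sum_rpow (s := (univ : Finset (Fin d))) (f := u) hP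
  rw [card_univ, Fintype.card_fin] at h1
  have hs : 0 ≤ ∑ i, |u i| := sum_nonneg fun i _ => abs_nonneg _
  have h2 := Real.rpow_le_rpow (Real.rpow_nonneg hs P) h1 (by positivity : 0 ≤ 1 / P)
  rw [← Real.rpow_mul hs, mul_one_div_cancel hP0.ne', Real.rpow_one,
    Real.mul_rpow (Real.rpow_nonneg (Nat.cast_nonneg d) _)
      (sum_nonneg fun i _ => Real.rpow_nonneg (abs_nonneg _) _),
    ← Real.rpow_mul (Nat.cast_nonneg d)] at h2
  have h3 : (P - 1) * (1 / P) = 1 - 1 / P := by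
    field_simp
  rw [h3] at h2
  exact h2

open Pool.Agent.helper75.BM (nrm nrm_eq nrm_top nrm_rpow nrm_nonneg coord_le toReal_ge)

theorem RDB_iq (q : ℝ≥0∞) [hq : Fact (1 ≤ q)] (h2 : 2 < q) (ht : q ≠ ⊤) :
    (1 / q).toReal = 1 / q.toReal ∧ 2 < q.toReal := by
  refine ⟨?_, ?_⟩
  · rw [ENNReal.toReal_div, ENNReal.toReal_one]
  · have h := (ENNReal.toReal_lt_toReal (by norm_num) ht).2 h2
    simpa using h

theorem RDB_dual {d : ℕ} (hd : 1 ≤ d) (q : ℝ≥0∞) [hq : Fact (1 ≤ q)] (h2 : 2 < q) (y : Fin d → ℝ) :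
    ∃ x : Fin d → ℝ, ∑ j, y j * x j = ∑ j, |y j| ^ ((1 - (1 / q).toReal)⁻¹) ∧
      nrm q x ≤ (∑ j, |y j| ^ ((1 - (1 / q).toReal)⁻¹)) ^ (1 / q).toReal := by
  by_cases ht : q = ⊤
  · subst ht
    have h0 : ((1 : ℝ≥0∞) / ⊤).toReal = 0 := by simp
    rw [h0]
    refine ⟨fun j => SignType.sign (y j), ?_, ?_⟩
    · refine sum_congr rfl fun j _ => ?_
      rw [sub_zero, inv_one, Real.rpow_one, mul_comm]
      exact sign_mul_self (y j)
    · rw [Real.rpow_zero, nrm_top]
      haveI : Nonempty (Fin d) := ⟨⟨0, by omega⟩⟩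
      refine ciSup_le fun j => ?_
      rcases lt_trichotomy (y j) 0 with h | h | h
      · rw [sign_neg h]; simp
      · rw [h]; simp
      · rw [sign_pos h]; simp
  · obtain ⟨hi, hQ⟩ := RDB_iq q h2 ht
    set Q := q.toReal with hQdef
    have hQ1 : Q - 1 ≠ 0 := by linarith
    have hQ0 : Q ≠ 0 := by linarith
    have hr : (1 - (1 / q).toReal)⁻¹ = Q / (Q - 1) := by
      rw [hi]
      field_simp
    rw [hr]
    have hr1 : Q / (Q - 1) - 1 = 1 / (Q - 1) := by
      field_simp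
      ring
    have hr0 : 0 < Q / (Q - 1) := div_pos (by linarith) (by linarith)
    refine ⟨fun j => SignType.sign (y j) * |y j| ^ (Q / (Q - 1) - 1), ?_, ?_⟩
    · refine sum_congr rfl fun j _ => ?_
      by_cases hy : y j = 0
      · rw [hy, zero_mul, abs_zero, Real.zero_rpow hr0.ne']
      · have hya : 0 < |y j| := abs_pos.2 hy
        have e1 : y j * (SignType.sign (y j) * |y j| ^ (Q / (Q - 1) - 1)) =
            (SignType.sign (y j) * y j) * |y j| ^ (Q / (Q - 1) - 1) := by ring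
        rw [e1, sign_mul_self, Real.rpow_sub_one hya.ne']
        field_simp
    · rw [nrm_eq ht, hi, ← hQdef]
      refine le_of_eq ?_
      congr 1
      refine sum_congr rfl fun j _ => ?_
      by_cases hy : y j = 0
      · rw [hy]
        simp only [sign_zero, SignType.coe_zero, zero_mul, abs_zero]
        rw [Real.zero_rpow hQ0, Real.zero_rpow hr0.ne']
      · have hya : 0 < |y j| := abs_pos.2 hy
        have e1 : |((SignType.sign (y j) : SignType) : ℝ)| = 1 := by
          rcases lt_or_gt_of_ne hy with h | h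
          · rw [sign_neg h]; simp
          · rw [sign_pos h]; simp
        rw [abs_mul, e1, one_mul, abs_of_nonneg (Real.rpow_nonneg (abs_nonneg _) _), ← Real.rpow_mul (abs_nonneg _), hr1]
        congr 1
        field_simp

theorem t_rdb : RDB := by
  intro d p q hp hq lam A hd hp2 hq2 hlam h1 h2
  have hpt : p ≠ ⊤ := (hp2.trans_le le_top).ne
  have hP1 := toReal_ge (p := p) hpt
  set P := p.toReal with hPdef
  have hP0 : 0 < P := by linarith
  have hd0 : (0 : ℝ) < d := by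
    have : 0 < d := hd
    exact_mod_cast this
  set iq := (1 / q).toReal with hiq
  have hiq0 : 0 ≤ iq := ENNReal.toReal_nonneg
  have hiq1 : iq < 1 := by
    by_cases ht : q = ⊤
    · rw [hiq, ht]
      simp
    · obtain ⟨hi, hQ⟩ := RDB_iq q hq2 ht
      rw [hiq, hi, div_lt_one (by linarith)]
      linarith
  have hr0 : 0 < (1 - iq)⁻¹ := inv_pos.2 (by linarith)
  have hAx : ∀ (x : Fin d → ℝ) (i : Fin d), A x i = ∑ j, x j * A (Pi.single j 1) i := by
    intro x i
    have e1 : x = ∑ j, x j • (Pi.single j (1 : ℝ) : Fin d → ℝ) := by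
      ext k
      rw [Finset.sum_apply]
      simp [Pi.single_apply]
    have e2 : A x = ∑ j, x j • A (Pi.single j 1) := by
      conv_lhs => rw [e1]
      rw [map_sum]
      exact sum_congr rfl fun j _ => map_smul A _ _
    rw [e2, Finset.sum_apply]
    exact sum_congr rfl fun j _ => by rw [Pi.smul_apply, smul_eq_mul]
  refine ⟨fun j i => lam * (d : ℝ) ^ (1 / P) * A (Pi.single j 1) i, ?_, ?_⟩
  · intro j
    have e1 : ∑ i, |lam * (d : ℝ) ^ (1 / P) * A (Pi.single j 1) i| ^ P =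
        (lam * nrm p (A (Pi.single j 1))) ^ P * d := by
      rw [Real.mul_rpow hlam.le (nrm_nonneg _), nrm_rpow hpt, mul_sum, sum_mul]
      refine sum_congr rfl fun i _ => ?_
      rw [abs_mul, abs_of_pos (by positivity : 0 < lam * (d : ℝ) ^ (1 / P)), Real.mul_rpow (by positivity) (abs_nonneg _),
        Real.mul_rpow hlam.le (by positivity), ← Real.rpow_mul hd0.le, one_div_mul_cancel hP0.ne', Real.rpow_one]
      ring
    show (d : ℝ) ≤ ∑ i, |lam * (d : ℝ) ^ (1 / P) * A (Pi.single j 1) i| ^ P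
    rw [e1]
    have e2 : 1 ≤ lam * nrm p (A (Pi.single j 1)) := by
      refine le_trans ?_ (h2 (Pi.single j 1))
      have := coord_le (p := q) (Pi.single j (1 : ℝ) : Fin d → ℝ) j
      rw [Pi.single_eq_same, abs_one] at this
      exact this
    have e3 : 1 ≤ (lam * nrm p (A (Pi.single j 1))) ^ P := Real.one_le_rpow e2 hP0.le
    nlinarith
  · intro X
    obtain ⟨x, hx1, hx2⟩ := RDB_dual hd q hq2 (fun j => ∑ i, A (Pi.single j 1) i * sg X i)
    set y : Fin d → ℝ := fun j => ∑ i, A (Pi.single j 1) i * sg X i with hy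
    set Y := ∑ j, |y j| ^ ((1 - (1 / q).toReal)⁻¹) with hY
    rw [← hiq] at hx2
    have hY0 : 0 ≤ Y := sum_nonneg fun j _ => Real.rpow_nonneg (abs_nonneg _) _
    have e1 : Y ≤ (d : ℝ) ^ (1 - 1 / P) * Y ^ iq := by
      have f1 : Y = ∑ i, sg X i * A x i := by
        rw [← hx1]
        have : ∀ i, sg X i * A x i = ∑ j, sg X i * (x j * A (Pi.single j 1) i) := by
          intro i
          rw [hAx x i, mul_sum]
        rw [sum_congr rfl fun i _ => this i, sum_comm]
        refine sum_congr rfl fun j _ => ?_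
        show (∑ i, A (Pi.single j 1) i * sg X i) * x j = _
        rw [sum_mul]
        exact sum_congr rfl fun i _ => by ring
      have f2 : ∑ i, sg X i * A x i ≤ ∑ i, |A x i| := by
        refine sum_le_sum fun i _ => ?_
        refine (le_abs_self _).trans ?_
        rw [abs_mul, sg_abs, one_mul]
      have f3 := RDB_holder P hP1 (A x)
      rw [hPdef, ← nrm_eq hpt, ← hPdef] at f3
      calc Y = ∑ i, sg X i * A x i := f1
        _ ≤ ∑ i, |A x i| := f2
        _ ≤ (d : ℝ) ^ (1 - 1 / P) * nrm p (A x) := f3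
        _ ≤ (d : ℝ) ^ (1 - 1 / P) * Y ^ iq :=
            mul_le_mul_of_nonneg_left ((h1 x).trans hx2) (Real.rpow_nonneg hd0.le _)
    have e2 : Y ≤ ((d : ℝ) ^ (1 - 1 / P)) ^ ((1 - iq)⁻¹) := by
      rcases hY0.eq_or_lt with h | h
      · rw [← h]
        positivity
      · have g1 : Y ^ (1 - iq) ≤ (d : ℝ) ^ (1 - 1 / P) := by
          rw [Real.rpow_sub h, Real.rpow_one, div_le_iff₀ (Real.rpow_pos_of_pos h _)]
          exact e1
        have g2 := Real.rpow_le_rpow (Real.rpow_nonneg hY0 _) g1 hr0.le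
        rw [← Real.rpow_mul hY0, mul_inv_cancel₀ (by linarith), Real.rpow_one] at g2
        exact g2
    have e3 : ∑ j, |∑ i, lam * (d : ℝ) ^ (1 / P) * A (Pi.single j 1) i * sg X i| ^ ((1 - iq)⁻¹) =
        (lam * (d : ℝ) ^ (1 / P)) ^ ((1 - iq)⁻¹) * Y := by
      rw [hY, mul_sum]
      refine sum_congr rfl fun j _ => ?_
      have : ∑ i, lam * (d : ℝ) ^ (1 / P) * A (Pi.single j 1) i * sg X i = lam * (d : ℝ) ^ (1 / P) * y j := by
        rw [hy]
        show _ = lam * (d : ℝ) ^ (1 / P) * ∑ i, A (Pi.single j 1) i * sg X i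
        rw [mul_sum]
        exact sum_congr rfl fun i _ => by ring
      rw [this, abs_mul, abs_of_pos (by positivity : 0 < lam * (d : ℝ) ^ (1 / P)), Real.mul_rpow (by positivity) (abs_nonneg _)]
    show ∑ j, |∑ i, lam * (d : ℝ) ^ (1 / P) * A (Pi.single j 1) i * sg X i| ^ ((1 - iq)⁻¹) ≤ (lam * d) ^ ((1 - iq)⁻¹)
    rw [e3]
    calc (lam * (d : ℝ) ^ (1 / P)) ^ ((1 - iq)⁻¹) * Y
        ≤ (lam * (d : ℝ) ^ (1 / P)) ^ ((1 - iq)⁻¹) * ((d : ℝ) ^ (1 - 1 / P)) ^ ((1 - iq)⁻¹) :=
          mul_le_mul_of_nonneg_left e2 (by positivity)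
      _ = (lam * (d : ℝ) ^ (1 / P) * (d : ℝ) ^ (1 - 1 / P)) ^ ((1 - iq)⁻¹) := by
          rw [← Real.mul_rpow (by positivity) (by positivity)]
      _ = (lam * d) ^ ((1 - iq)⁻¹) := by
          congr 1
          rw [mul_assoc, ← Real.rpow_add hd0]
          norm_num

end Pool.Agent.helper43.KG
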